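import Pool.Agent.H.MP_99e598_lc.C

set_option autoImplicit false

namespace Pool.Agent.Results.MP_99e598_lc.No

open Pool.Agent.H.MP_9fb7a1_lc Pool.Agent.Lib.helper21 Pool.Agent.Lib.helper21.PR

/-- An attractive set of hyperimmune-free degree that computes no Martin-Loef random set. -/
theorem result : ∃ A : ℕ → Bool, Attractive A ∧
    (∀ f : ℕ → ℕ, TuringReducible (fun n => Part.some (f n)) (orc A) →
      ∃ h : ℕ → ℕ, Computable h ∧ ∀ n, f n ≤ h n) ∧
    ∀ R : ℕ → Bool, TuringReducible (orc R) (orc A) → ¬ ML.Rand R := by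
  obtain ⟨A, h1, h2, h3⟩ := Pool.Agent.H.MP_99e598_lc.final
  refine ⟨A, h1, fun f hf => (h2 f (CI.of_red hf)).imp fun b hb => ⟨?_, hb.2⟩,
    fun R hR => h3 R (CI.of_orc hR)⟩
  unfold Computable
  exact RecursiveIn.partrec_of_const (s := Part.some 0) hb.1.red

end Pool.Agent.Results.MP_99e598_lc.No
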